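import Mathlib
import Pool.Agent.W66.XG
import Pool.Agent.H447R2.ML.Spec
import Pool.Agent.H473R4.Count

set_option autoImplicit false

/-!
# Generalized Wagstaff numbers in a fixed base: the asymptotic law for almost every amplitude

For an integer `b ≥ 2`, a real `β > 0` and a prime `p` let `W b β p` be the `p`-rough part (the
product, with multiplicity, of the prime factors larger than `p`) of `⌈β b ^ p⌉`, and let `N b β n`
be the number of primes `p ≤ n` with `W b β p` prime.  At the amplitude `β = 1 / (b + 1)` the number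
`W b β p` is the generalized Wagstaff number `(b ^ p + 1) / (b + 1)` (for `p ≠ 2` prime to `b + 1`).
The base `b` is fixed.  We prove that for almost every `β > 0`, simultaneously for all bases
`b ≥ 2`, the limit of `N b β n / log n` exists and equals `e ^ γ / log b`.
-/

namespace Pool.Agent.Results.MP_ce8d0c_nt.FixedBaseLaw

open Filter Topology MeasureTheory

/-- The product, with multiplicity, of the prime factors of `m` that are larger than `p`. -/
def roughPart (p m : ℕ) : ℕ := (m.primeFactorsList.filter (fun r => p < r)).prod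

/-- The `p`-rough part of `⌈β b ^ p⌉`. -/
noncomputable def W (b : ℕ) (β : ℝ) (p : ℕ) : ℕ := roughPart p ⌈β * (b : ℝ) ^ p⌉₊

/-- The number of primes `p ≤ n` for which `W b β p` is prime. -/
noncomputable def N (b : ℕ) (β : ℝ) (n : ℕ) : ℕ :=
  ((Finset.range (n + 1)).filter (fun p => p.Prime ∧ (W b β p).Prime)).card

/-- The special amplitude. -/
lemma special {b : ℕ} (hb : 2 ≤ b) {p : ℕ} (hp : p.Prime) (hp2 : p ≠ 2) (hpd : ¬ p ∣ b + 1) :
    W b (1 / ((b : ℝ) + 1)) p * (b + 1) = b ^ p + 1 := by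
  have hodd : Odd p := hp.odd_of_ne_two hp2
  obtain ⟨M, hM⟩ : b + 1 ∣ b ^ p + 1 := by
    have := hodd.nat_add_dvd_pow_add_pow b 1
    rwa [one_pow] at this
  have hMr : ((M : ℝ)) * (b + 1) = (b : ℝ) ^ p + 1 := by
    have : ((b : ℝ) ^ p + 1) = (((b ^ p + 1 : ℕ)) : ℝ) := by push_cast; ring
    rw [this, hM]
    push_cast; ring
  have hb0 : (0 : ℝ) < (b : ℝ) + 1 := by positivity
  have hM0 : 1 ≤ M := by
    rcases Nat.eq_zero_or_pos M with h | h
    · rw [h] at hM
      simp at hM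
    · exact h
  have hce : ⌈1 / ((b : ℝ) + 1) * (b : ℝ) ^ p⌉₊ = M := by
    have e : 1 / ((b : ℝ) + 1) * (b : ℝ) ^ p = M - 1 / ((b : ℝ) + 1) := by
      field_simp
      linarith
    have hb2 : (2 : ℝ) ≤ b := by exact_mod_cast hb
    have h1 : 1 / ((b : ℝ) + 1) < 1 := by
      rw [div_lt_one hb0]; linarith
    have h2 : 0 < 1 / ((b : ℝ) + 1) := by positivity
    rw [Nat.ceil_eq_iff (by omega), e, Nat.cast_sub hM0, Nat.cast_one]
    constructor <;> linarith
  have hr := Pool.Agent.H447R2.ML.rough_quot (a := (b : ℤ)) (b := -1)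
    (IsCoprime.neg_right isCoprime_one_right) (by omega) (by omega) hp
    (by
      intro h
      apply hpd
      have : ((p : ℕ) : ℤ) ∣ ((b + 1 : ℕ) : ℤ) := by push_cast; simpa using h
      exact_mod_cast this) (x := (M : ℝ)) (by
        push_cast
        rw [hodd.neg_one_pow]
        have hne : (b : ℝ) - -1 ≠ 0 := by linarith
        field_simp
        linarith)
  rw [Nat.floor_natCast] at hr
  have hgeom : (∑ i ∈ Finset.range p, (b : ℤ) ^ i * (-1) ^ (p - 1 - i)) * ((b : ℤ) - -1) =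
      (b : ℤ) ^ p - (-1) ^ p := (Commute.all (b : ℤ) (-1)).geom_sum₂_mul p
  rw [← hr, hodd.neg_one_pow] at hgeom
  unfold W
  rw [hce]
  have h4 : ((roughPart p M : ℕ) : ℤ) * ((b : ℤ) + 1) = (b : ℤ) ^ p + 1 := by
    have h5 : (roughPart p M : ℤ) = (Pool.Agent.H305R2.roughPart p M : ℤ) := rfl
    rw [h5]
    linarith
  exact_mod_cast h4

/-- The infinitude of generalized Wagstaff primes to the base `b` in terms of the counting function
at the special amplitude. -/
lemma special_infinite (b : ℕ) (hb : 2 ≤ b) :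
    {n : ℕ | Odd n ∧ ((b ^ n + 1) / (b + 1)).Prime}.Infinite ↔
      Tendsto (N b (1 / ((b : ℝ) + 1))) atTop atTop := by
  have h1 : {n : ℕ | Odd n ∧ ((b ^ n + 1) / (b + 1)).Prime}.Infinite ↔
      {p : ℕ | p.Prime ∧ (p ≠ 2 ∧ ((b ^ p + 1) / (b + 1)).Prime)}.Infinite := by
    have e : {n : ℕ | Odd n ∧ ((b ^ n + 1) / (b + 1)).Prime} =
        {p : ℕ | p.Prime ∧ (p ≠ 2 ∧ ((b ^ p + 1) / (b + 1)).Prime)} := by
      ext n
      constructor
      · rintro ⟨h1, h2⟩
        refine ⟨Pool.Agent.H473R4.wagstaff_prime_index hb h1 h2, ?_, h2⟩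
        rintro rfl
        exact absurd h1 (by decide)
      · rintro ⟨h1, h2, h3⟩
        exact ⟨h1.odd_of_ne_two h2, h3⟩
    rw [e]
  rw [h1]
  refine Pool.Agent.H473R4.tendsto_iff (W b (1 / ((b : ℝ) + 1))) _ (b + 2) fun p hp hpb => ?_
  have hp2 : p ≠ 2 := by omega
  have hpd : ¬ p ∣ b + 1 := fun h => by
    have := Nat.le_of_dvd (by omega) h
    omega
  have h2 : (b ^ p + 1) / (b + 1) = W b (1 / ((b : ℝ) + 1)) p := by
    rw [← special hb hp hp2 hpd, Nat.mul_div_cancel _ (by omega)]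
  rw [h2]
  exact ⟨fun h => ⟨hp2, h⟩, fun h => h.2⟩

lemma law (b : ℕ) (hb : 2 ≤ b) : ∀ᵐ β : ℝ, 0 < β →
    Tendsto (fun n : ℕ => (N b β n : ℝ) / Real.log n) atTop
      (𝓝 (Real.exp Real.eulerMascheroniConstant / Real.log b)) := by
  have hb2 : (2 : ℝ) ≤ b := by exact_mod_cast hb
  have key := Pool.Agent.W66X.law_ceil hb (κ := 1) (C := 1) (g := fun _ => 1)
    (by norm_num) (by linarith) (by intro p; simp)
  filter_upwards [key] with β h hβ
  refine (h hβ).congr fun n => ?_
  have hM : Pool.Agent.H447R2.ML.cc (fun p x => x * (b : ℝ) ^ p + 1) β n = N b β n := by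
    unfold Pool.Agent.H447R2.ML.cc N W
    have e : ∀ p : ℕ, ⌈β * (b : ℝ) ^ p + 1⌉₊ - 1 = ⌈β * (b : ℝ) ^ p⌉₊ := by
      intro p
      rw [Nat.ceil_add_one (by positivity)]
      omega
    simp only [e]
    rfl
  rw [hM]

lemma mean (b : ℕ) (hb : 2 ≤ b) : ∀ s t : ℝ, s < t → Tendsto (fun n : ℕ =>
    (∫ u in s..t, (N b (Real.exp u) n : ℝ)) / ((t - s) * Real.log n)) atTop
      (𝓝 (Real.exp Real.eulerMascheroniConstant / Real.log b)) := by
  intro s t hst
  have hb2 : (2 : ℝ) ≤ b := by exact_mod_cast hb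
  have key := Pool.Agent.H447R2.ML.shift_ceil (α := (b : ℝ)) (κ := 1) (C := 1) (g := fun _ => 1)
    (by linarith) (by norm_num) (by linarith) (by intro p; simp)
  have hM : ∀ (x : ℝ) (n : ℕ), 0 < x →
      Pool.Agent.H447R2.ML.cc (fun p x => x * (b : ℝ) ^ p + 1) x n = N b x n := by
    intro x n hx
    unfold Pool.Agent.H447R2.ML.cc N W
    have e : ∀ p : ℕ, ⌈x * (b : ℝ) ^ p + 1⌉₊ - 1 = ⌈x * (b : ℝ) ^ p⌉₊ := by
      intro p
      rw [Nat.ceil_add_one (by positivity)]
      omega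
    simp only [e]
    rfl
  refine (key.1 s t hst).congr fun n => ?_
  simp only [hM _ _ (Real.exp_pos _)]

theorem result :
    -- the generalized Wagstaff numbers to the base `b` are the values at `β = 1 / (b + 1)`
    (∀ b : ℕ, 2 ≤ b → ∀ p : ℕ, p.Prime → p ≠ 2 → ¬ p ∣ b + 1 →
      W b (1 / ((b : ℝ) + 1)) p * (b + 1) = b ^ p + 1) ∧
    (∀ b : ℕ, 2 ≤ b → ({n : ℕ | Odd n ∧ ((b ^ n + 1) / (b + 1)).Prime}.Infinite ↔
      Tendsto (N b (1 / ((b : ℝ) + 1))) atTop atTop)) ∧
    -- the mean over a window of amplitudes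
    (∀ b : ℕ, 2 ≤ b → ∀ s t : ℝ, s < t → Tendsto (fun n : ℕ =>
        (∫ u in s..t, (N b (Real.exp u) n : ℝ)) / ((t - s) * Real.log n)) atTop
        (𝓝 (Real.exp Real.eulerMascheroniConstant / Real.log b))) ∧
    -- the law for almost every amplitude, simultaneously for all bases
    (∀ᵐ β : ℝ, 0 < β → ∀ b : ℕ, 2 ≤ b →
      Tendsto (fun n : ℕ => (N b β n : ℝ) / Real.log n) atTop
        (𝓝 (Real.exp Real.eulerMascheroniConstant / Real.log b))) := by
  refine ⟨fun b hb p hp hp2 hpd => special hb hp hp2 hpd, fun b hb => special_infinite b hb,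
    fun b hb => mean b hb, ?_⟩
  have h : ∀ b : ℕ, ∀ᵐ β : ℝ, 2 ≤ b → 0 < β →
      Tendsto (fun n : ℕ => (N b β n : ℝ) / Real.log n) atTop
        (𝓝 (Real.exp Real.eulerMascheroniConstant / Real.log b)) := by
    intro b
    by_cases hb : 2 ≤ b
    · filter_upwards [law b hb] with β hβ _
      exact hβ
    · exact Eventually.of_forall fun β h => absurd h hb
  filter_upwards [ae_all_iff.2 h] with β hβ h0 b hb
  exact hβ b hb h0

end Pool.Agent.Results.MP_ce8d0c_nt.FixedBaseLaw
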