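import Mathlib
import Pool.Agent.W66.LU
import Pool.Agent.H473R4.Count

set_option autoImplicit false

/-!
# Generalized Wagstaff numbers in a fixed base: the law for almost every sequence of last digits

For an integer `b ≥ 2` and a sequence `d 0, d 1, d 2, …` of base `b` digits let `D b d p` be the
integer with the base `b` digits `d (p - 1) … d 1 d 0`, and let `N b d n` be the number of primes
`p ≤ n` for which the `p`-rough part (the product, with multiplicity, of the prime factors larger
than `p`) of `D b d p` is prime.  For the digits `w b = 1, b - 1, 0, b - 1, 0, …` (the `b`-adic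
expansion of `1 / (b + 1)`) and odd `p` the integer `D b (w b) p` is the generalized Wagstaff number
`(b ^ p + 1) / (b + 1)`.  We prove that for every base `b ≥ 2` and almost every sequence of
independent uniform digits with `d 0` prime to `b` the limit of `N b d n / log n` exists and equals
`e ^ γ / log b`.
-/

namespace Pool.Agent.Results.MP_ce8d0c_nt.LastDigitsLaw

open Filter Topology MeasureTheory

/-- The product, with multiplicity, of the prime factors of `m` that are larger than `p`. -/
def roughPart (p m : ℕ) : ℕ := (m.primeFactorsList.filter (fun r => p < r)).prod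

/-- The integer with base `b` digits `d (p - 1) … d 1 d 0`. -/
def D (b : ℕ) (d : ℕ → Fin b) (p : ℕ) : ℕ := ∑ i ∈ Finset.range p, (d i : ℕ) * b ^ i

/-- The number of primes `p ≤ n` for which the `p`-rough part of `D b d p` is prime. -/
def N (b : ℕ) (d : ℕ → Fin b) (n : ℕ) : ℕ :=
  ((Finset.range (n + 1)).filter (fun p => p.Prime ∧ (roughPart p (D b d p)).Prime)).card

/-- The digits `1, b - 1, 0, b - 1, 0, …` of the `b`-adic expansion of `1 / (b + 1)`. -/
def w (b : ℕ) [NeZero b] (i : ℕ) : Fin b :=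
  Fin.ofNat b (if i = 0 then 1 else if i % 2 = 1 then b - 1 else 0)

lemma w_val {b : ℕ} [NeZero b] (hb : 2 ≤ b) (i : ℕ) :
    ((w b i : Fin b) : ℕ) = if i = 0 then 1 else if i % 2 = 1 then b - 1 else 0 := by
  unfold w
  rw [Fin.val_ofNat]
  apply Nat.mod_eq_of_lt
  split_ifs <;> omega

lemma special_value {b : ℕ} [NeZero b] (hb : 2 ≤ b) (k : ℕ) :
    D b (w b) (2 * k + 1) * (b + 1) = b ^ (2 * k + 1) + 1 := by
  induction k with
  | zero =>
    unfold D
    rw [mul_zero, zero_add, Finset.sum_range_one, w_val hb, if_pos rfl]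
    simp
  | succ k ih =>
    have e : 2 * (k + 1) + 1 = 2 * k + 1 + 1 + 1 := by ring
    have h1 : D b (w b) (2 * (k + 1) + 1) = D b (w b) (2 * k + 1) + (b - 1) * b ^ (2 * k + 1) := by
      rw [e]
      unfold D
      rw [Finset.sum_range_succ, Finset.sum_range_succ, w_val hb, w_val hb, if_neg (by omega),
        if_pos (by omega), if_neg (by omega), if_neg (by omega)]
      ring
    rw [h1, add_mul, ih, e]
    obtain ⟨c, rfl⟩ : ∃ c, b = c + 1 := ⟨b - 1, by omega⟩
    rw [Nat.add_sub_cancel]
    ring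

/-- The special sequence. -/
lemma special {b : ℕ} [NeZero b] (hb : 2 ≤ b) {p : ℕ} (hp : p.Prime) (hp2 : p ≠ 2)
    (hpd : ¬ p ∣ b + 1) : roughPart p (D b (w b) p) * (b + 1) = b ^ p + 1 := by
  obtain ⟨k, hk⟩ := hp.odd_of_ne_two hp2
  have h1 : D b (w b) p * (b + 1) = b ^ p + 1 := by
    rw [hk]
    exact special_value hb k
  have h2 : roughPart p (D b (w b) p) = D b (w b) p :=
    Pool.Agent.W66L.rough_wagstaff hb hp hp2 hpd h1
  rw [h2, h1]

/-- The infinitude of generalized Wagstaff primes to the base `b` in terms of the counting function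
at the special sequence. -/
lemma special_infinite (b : ℕ) [NeZero b] (hb : 2 ≤ b) :
    {n : ℕ | Odd n ∧ ((b ^ n + 1) / (b + 1)).Prime}.Infinite ↔
      Tendsto (N b (w b)) atTop atTop := by
  have h1 : {n : ℕ | Odd n ∧ ((b ^ n + 1) / (b + 1)).Prime}.Infinite ↔
      {p : ℕ | p.Prime ∧ (p ≠ 2 ∧ ((b ^ p + 1) / (b + 1)).Prime)}.Infinite := by
    have e : {n : ℕ | Odd n ∧ ((b ^ n + 1) / (b + 1)).Prime} =
        {p : ℕ | p.Prime ∧ (p ≠ 2 ∧ ((b ^ p + 1) / (b + 1)).Prime)} := by
      ext n
      constructor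
      · rintro ⟨h1, h2⟩
        refine ⟨Pool.Agent.H473R4.wagstaff_prime_index hb h1 h2, ?_, h2⟩
        rintro rfl
        exact absurd h1 (by decide)
      · rintro ⟨h1, h2, h3⟩
        exact ⟨h1.odd_of_ne_two h2, h3⟩
    rw [e]
  rw [h1]
  refine Pool.Agent.H473R4.tendsto_iff (fun p => roughPart p (D b (w b) p)) _ (b + 2)
    fun p hp hpb => ?_
  have hp2 : p ≠ 2 := by omega
  have hpd : ¬ p ∣ b + 1 := fun h => by
    have := Nat.le_of_dvd (by omega) h
    omega
  have h2 : (b ^ p + 1) / (b + 1) = roughPart p (D b (w b) p) := by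
    rw [← special hb hp hp2 hpd, Nat.mul_div_cancel _ (by omega)]
  rw [h2]
  exact ⟨fun h => ⟨hp2, h⟩, fun h => h.2⟩

theorem result (b : ℕ) [NeZero b] (hb : 2 ≤ b) :
    -- the generalized Wagstaff numbers to the base `b` are the values at the digits of `1 / (b + 1)`
    (∀ p : ℕ, p.Prime → p ≠ 2 → ¬ p ∣ b + 1 →
      roughPart p (D b (w b) p) * (b + 1) = b ^ p + 1) ∧
    ({n : ℕ | Odd n ∧ ((b ^ n + 1) / (b + 1)).Prime}.Infinite ↔
      Tendsto (N b (w b)) atTop atTop) ∧
    -- the law for almost every sequence of digits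
    (∀ᵐ d : ℕ → Fin b ∂(Measure.infinitePi
        (fun _ : ℕ => ProbabilityTheory.uniformOn (Set.univ : Set (Fin b)))),
      (d 0 : ℕ).Coprime b → Tendsto (fun n : ℕ => (N b d n : ℝ) / Real.log n) atTop
        (𝓝 (Real.exp Real.eulerMascheroniConstant / Real.log b))) := by
  refine ⟨fun p hp hp2 hpd => special hb hp hp2 hpd, special_infinite b hb, ?_⟩
  have h := Pool.Agent.W66L.law_all (b := b) hb (Pool.Agent.W66L.full_digits b)
  have h' : ∀ᵐ d : ℕ → Fin b ∂(Measure.infinitePi
        (fun _ : ℕ => ProbabilityTheory.uniformOn (Set.univ : Set (Fin b)))),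
      (Pool.Agent.W66L.dsum b 1 d).Coprime b →
      Tendsto (fun n : ℕ => (Pool.Agent.W66L.cntR (fun p => Pool.Agent.W66L.dsum b p d) n : ℝ) /
        Real.log n) atTop
        (𝓝 (Real.exp Real.eulerMascheroniConstant / Real.log (b : ℝ))) := h
  filter_upwards [h'] with d hd hc
  have h1 : Pool.Agent.W66L.dsum b 1 d = (d 0 : ℕ) := by
    unfold Pool.Agent.W66L.dsum
    simp
  rw [h1] at hd
  refine (hd hc).congr fun n => ?_
  have h4 : Pool.Agent.W66L.cntR (fun p => Pool.Agent.W66L.dsum b p d) n = N b d n := by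
    unfold Pool.Agent.W66L.cntR N
    congr 1
    ext p
    simp only [Finset.mem_filter, Finset.mem_Icc, Finset.mem_range]
    constructor
    · rintro ⟨⟨h5, h6⟩, h7, h8⟩
      exact ⟨by omega, h7, h8⟩
    · rintro ⟨h6, h7, h8⟩
      exact ⟨⟨h7.pos, by omega⟩, h7, h8⟩
  rw [h4]

end Pool.Agent.Results.MP_ce8d0c_nt.LastDigitsLaw
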