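import Mathlib
import Pool.Agent.W66.CK
import Pool.Agent.H447R2.ML.Spec
import Pool.Agent.H473R4.Count

set_option autoImplicit false

/-!
# Generalized Wagstaff numbers to almost every real base

For a function `A`, a real base `x > 1` and a prime `p` let `W A x p` be the `p`-rough part (the
product, with multiplicity, of the prime factors larger than `p`) of `⌊A x * (x ^ p - (-1) ^ p)⌋`
(for odd `p` this is `⌊A x * (x ^ p + 1)⌋`), and let `N A x n` be the number of primes `p ≤ n` with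
`W A x p` prime.  For `A x = 1 / (x + 1)` and every integer base `b ≥ 2` the number `W A b p` is the
generalized Wagstaff number `(b ^ p + 1) / (b + 1)` (for `p ≠ 2` prime to `b + 1`).  We prove that
for every positive `C ^ 2` function `A` and almost every real base `x > 1` the limit of
`N A x n / log n` exists and equals `e ^ γ / log x`.
-/

namespace Pool.Agent.Results.MP_ce8d0c_nt.RealBaseLaw

open Filter Topology MeasureTheory

/-- The product, with multiplicity, of the prime factors of `m` that are larger than `p`. -/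
def roughPart (p m : ℕ) : ℕ := (m.primeFactorsList.filter (fun r => p < r)).prod

/-- The `p`-rough part of `⌊A x * (x ^ p - (-1) ^ p)⌋`. -/
noncomputable def W (A : ℝ → ℝ) (x : ℝ) (p : ℕ) : ℕ := roughPart p ⌊A x * (x ^ p - (-1) ^ p)⌋₊

/-- The number of primes `p ≤ n` for which `W A x p` is prime. -/
noncomputable def N (A : ℝ → ℝ) (x : ℝ) (n : ℕ) : ℕ :=
  ((Finset.range (n + 1)).filter (fun p => p.Prime ∧ (W A x p).Prime)).card

/-- At an integer base `b` with `A b = 1 / (b + 1)`. -/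
lemma special {A : ℝ → ℝ} {b : ℕ} (hb : 2 ≤ b) (hA : A b = 1 / ((b : ℝ) + 1)) {p : ℕ}
    (hp : p.Prime) (hp2 : p ≠ 2) (hpd : ¬ p ∣ b + 1) : W A b p * (b + 1) = b ^ p + 1 := by
  have hodd : Odd p := hp.odd_of_ne_two hp2
  have hr := Pool.Agent.H447R2.ML.rough_quot (a := (b : ℤ)) (b := -1)
    (IsCoprime.neg_right isCoprime_one_right) (by omega) (by omega) hp
    (by
      intro h
      apply hpd
      have : ((p : ℕ) : ℤ) ∣ ((b + 1 : ℕ) : ℤ) := by push_cast; simpa using h
      exact_mod_cast this) (x := A b * ((b : ℝ) ^ p - (-1) ^ p)) (by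
        rw [hA]
        push_cast
        rw [sub_neg_eq_add]
        ring)
  have hgeom : (∑ i ∈ Finset.range p, (b : ℤ) ^ i * (-1) ^ (p - 1 - i)) * ((b : ℤ) - -1) =
      (b : ℤ) ^ p - (-1) ^ p := (Commute.all (b : ℤ) (-1)).geom_sum₂_mul p
  have e1 : ((-1 : ℤ)) ^ p = -1 := hodd.neg_one_pow
  rw [← hr, e1] at hgeom
  have h4 : ((W A b p : ℕ) : ℤ) * ((b : ℤ) + 1) = (b : ℤ) ^ p + 1 := by
    have h5 : (W A b p : ℤ) =
      (Pool.Agent.H305R2.roughPart p ⌊A b * ((b : ℝ) ^ p - (-1) ^ p)⌋₊ : ℤ) := rfl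
    rw [h5]
    linarith
  exact_mod_cast h4

/-- The infinitude of generalized Wagstaff primes to the base `b` in terms of the counting function
at the base `b`. -/
lemma special_infinite {A : ℝ → ℝ} {b : ℕ} (hb : 2 ≤ b) (hA : A b = 1 / ((b : ℝ) + 1)) :
    {n : ℕ | Odd n ∧ ((b ^ n + 1) / (b + 1)).Prime}.Infinite ↔
      Tendsto (N A b) atTop atTop := by
  have h1 : {n : ℕ | Odd n ∧ ((b ^ n + 1) / (b + 1)).Prime}.Infinite ↔
      {p : ℕ | p.Prime ∧ (p ≠ 2 ∧ ((b ^ p + 1) / (b + 1)).Prime)}.Infinite := by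
    have e : {n : ℕ | Odd n ∧ ((b ^ n + 1) / (b + 1)).Prime} =
        {p : ℕ | p.Prime ∧ (p ≠ 2 ∧ ((b ^ p + 1) / (b + 1)).Prime)} := by
      ext n
      constructor
      · rintro ⟨h1, h2⟩
        refine ⟨Pool.Agent.H473R4.wagstaff_prime_index hb h1 h2, ?_, h2⟩
        rintro rfl
        exact absurd h1 (by decide)
      · rintro ⟨h1, h2, h3⟩
        exact ⟨h1.odd_of_ne_two h2, h3⟩
    rw [e]
  rw [h1]
  refine Pool.Agent.H473R4.tendsto_iff (W A b) _ (b + 2) fun p hp hpb => ?_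
  have hp2 : p ≠ 2 := by omega
  have hpd : ¬ p ∣ b + 1 := fun h => by
    have := Nat.le_of_dvd (by omega) h
    omega
  have h2 : (b ^ p + 1) / (b + 1) = W A b p := by
    rw [← special hb hA hp hp2 hpd, Nat.mul_div_cancel _ (by omega)]
  rw [h2]
  exact ⟨fun h => ⟨hp2, h⟩, fun h => h.2⟩

theorem result :
    -- with `A b = 1 / (b + 1)` the numbers at the integer base `b` are the Wagstaff numbers
    (∀ A : ℝ → ℝ, ∀ b : ℕ, 2 ≤ b → A b = 1 / ((b : ℝ) + 1) → ∀ p : ℕ, p.Prime → p ≠ 2 →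
      ¬ p ∣ b + 1 → W A b p * (b + 1) = b ^ p + 1) ∧
    (∀ A : ℝ → ℝ, ∀ b : ℕ, 2 ≤ b → A b = 1 / ((b : ℝ) + 1) →
      ({n : ℕ | Odd n ∧ ((b ^ n + 1) / (b + 1)).Prime}.Infinite ↔
        Tendsto (N A b) atTop atTop)) ∧
    -- the asymptotic law along every curve, for almost every real base
    (∀ A : ℝ → ℝ, ContDiffOn ℝ 2 A (Set.Ioi 1) → (∀ x : ℝ, 1 < x → 0 < A x) →
      ∀ᵐ x : ℝ, 1 < x → Tendsto (fun n : ℕ => (N A x n : ℝ) / Real.log n) atTop
        (𝓝 (Real.exp Real.eulerMascheroniConstant / Real.log x))) := by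
  refine ⟨fun A b hb hA p hp hp2 hpd => special hb hA hp hp2 hpd,
    fun A b hb hA => special_infinite hb hA, fun A hA hpos => ?_⟩
  have e : max 1 |(-1 : ℝ)| = 1 := by norm_num
  have h := Pool.Agent.W66C.law_curve (-1) (A := A) (by rw [e]; exact hA) (by rw [e]; exact hpos)
  rw [e] at h
  exact h

end Pool.Agent.Results.MP_ce8d0c_nt.RealBaseLaw
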